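import Pool.Agent.H37.CTN.Stmts2

/-!
# Denominators of conductors: `SL_n(q)`, `n ≥ 3`, `p` odd: `N = q ^ (n - 2) lcm_(1 ≤ m < n) (q ^ m - 1)`: statements
of the rows of the board `cto`

Row `XXX` is a theorem `xxx_thm (h1 : S_AAA) ... : S_XXX` in `Pool/Agent/H<k>/CTO/XXX.lean`, importing this
file, namespace `Pool.CND`.

`n = s + 3`, `Q = q ^ (s + 1)`.  The splitting field over `k(t)` of `E(T) = T ^ (q ^ n) + a T ^ (q ^ (n - 1)) + b T ^ q + T`, `a = - (t ^ ((q - 1) Q) + 2 t ^ ((q - 1) Q - 1))`, `b = t ^ (q Q - 2)` has conductor `(Q ν + 1) / (Q (Q - 1))`.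
`e = - P.ord t`.  Orders of the roots: `X_0`: `e (q Q - 2) / (q - 1)`; `X_1, ..., X_(s+1)`: `- e (Q - 2) / (q (Q - 1))`; `X_(s+2)`: `- e / q`.  `M_1(T) = T ^ q - x T`, `x = X_0 ^ (q - 1)`; `Y_l = M_1(X_(l+1))`, `l ≤ s`, `Y' = M_1(X_(s+2))`; `Z' = ∏_c (Y' + ∑ c_l Y_l)`.
`h = ζ t / Y_0`, `z = Y' / Y_0 - h`.  For `s = 0` this is case (II) of the board `ctl` (rows `T51`-`T57`) up to signs.
-/

set_option autoImplicit false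

namespace Pool.CND

open Finset Polynomial

/-- `l + 1` -/
def mi (s : ℕ) (l : Fin (s + 1)) : Fin (s + 3) := ⟨l.val + 1, by omega⟩

/-- `ν = Q - 2 + q (q Q - 2) (Q - 1) / (q - 1)` -/
def nu (q s : ℕ) : ℕ := q ^ (s + 1) - 2 + q * (q ^ (s + 2) - 2) * ∑ i ∈ range (s + 1), q ^ i

/-- the roots `X i` -/
structure PRoots (k F L : Type) [Field k] [Field F] [Field L] [Algebra F k] [Algebra k L]
    (q s : ℕ) (t : L) (X : Fin (s + 3) → L) : Prop where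
  rel : ∀ i, X i ^ q ^ (s + 3) -
    (t ^ ((q - 1) * q ^ (s + 1)) + 2 * t ^ ((q - 1) * q ^ (s + 1) - 1)) * X i ^ q ^ (s + 2) +
    t ^ (q ^ (s + 2) - 2) * X i ^ q + X i = 0
  ind : ∀ c : Fin (s + 3) → F, ∑ i, cst k F L (c i) * X i = 0 → c = 0
  tr : Transcendental k t

/-- orders of the roots at `P`, over `t = ∞` -/
structure POrd (k F L : Type) [Field k] [Field F] [Field L] [Algebra F k] [Algebra k L]
    (q s : ℕ) (t : L) (X : Fin (s + 3) → L) (P : Place k L) : Prop where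
  neg : P.ord t < 0
  small : ((q : ℤ) - 1) * P.ord (X 0) = -(((q : ℤ) ^ (s + 2) - 2) * P.ord t)
  mid : ∀ c : Fin (s + 3) → F, c (Fin.last (s + 2)) = 0 → (∃ i, i ≠ 0 ∧ c i ≠ 0) →
    (q : ℤ) * ((q : ℤ) ^ (s + 1) - 1) * P.ord (∑ i, cst k F L (c i) * X i) =
      ((q : ℤ) ^ (s + 1) - 2) * P.ord t
  top : ∀ c : Fin (s + 3) → F, c (Fin.last (s + 2)) ≠ 0 →
    (q : ℤ) * P.ord (∑ i, cst k F L (c i) * X i) = P.ord t

/-- `Y_l = M_1(X_(l+1))`, `Yt = M_1(X_(s+2))`, `Yp = ∏_c (Yt + ∑ c_l Y_l)` -/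
structure PY (k F L : Type) [Field k] [Field F] [Fintype F] [Field L] [Algebra F k] [Algebra k L]
    (q s : ℕ) (X : Fin (s + 3) → L) (Y : Fin (s + 1) → L) (Yt Yp : L) : Prop where
  y : ∀ l, Y l = X (mi s l) ^ q - X 0 ^ (q - 1) * X (mi s l)
  yt : Yt = X (Fin.last (s + 2)) ^ q - X 0 ^ (q - 1) * X (Fin.last (s + 2))
  yp : Yp = ∏ c : Fin (s + 1) → F, (Yt + ∑ l, cst k F L (c l) * Y l)

/-! ## Existence and group theory -/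

/-- P41: existence (`Pool.CND.FN1.cover` in `Pool/Agent/H46/CTN/FN1a.lean`), `EXI`, change of basis as `FN2`, orders as `N41`: of the four terms of `E(x) = 0` the least order is taken twice; the roots with the largest order have dimension `≤ 1` (`x ^ (q - 1) b` has residue `- 1`), modulo them those of the middle order dimension `≤ s + 1`
(`x ^ (q (Q - 1))` is `- b / a` up to smaller terms, so quotients have residue in `F_Q`), modulo those the others dimension `≤ 1` -/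
def S_P41 : Prop := ∀ (p : ℕ) (k F : Type) [Field k] [IsAlgClosed k] [Field F] [Algebra F k]
  (f q s : ℕ), p.Prime → p ≠ 2 → CharP k p → 1 ≤ f → q = p ^ f → Nat.card F = q →
  ∃ (L : Type) (_ : Field L) (_ : Algebra k L) (t : L) (X : Fin (s + 3) → L)
    (G₀ : Subgroup (Matrix.SpecialLinearGroup (Fin (s + 3)) F)) (ρ : G₀ →* (L ≃ₐ[k] L))
    (P : Place k L), PRoots k F L q s t X ∧ NCover k F L t X G₀ ρ ∧ POrd k F L q s t X P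

/-- P42: `P.ord (w x - x) > P.ord x` for `w ∈ ram P ρ 1`, `x ≠ 0` (as `N42`) -/
def S_P42 : Prop := ∀ (p : ℕ) (k F L : Type) [Field k] [IsAlgClosed k] [Field F] [Algebra F k]
  [Field L] [Algebra k L] (f q s : ℕ) (t : L) (X : Fin (s + 3) → L)
  (G₀ : Subgroup (Matrix.SpecialLinearGroup (Fin (s + 3)) F)) (ρ : G₀ →* (L ≃ₐ[k] L))
  (P : Place k L), p.Prime → p ≠ 2 → CharP k p → 1 ≤ f → q = p ^ f → Nat.card F = q →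
  PRoots k F L q s t X → NCover k F L t X G₀ ρ → POrd k F L q s t X P →
  ∀ w : G₀, w ∈ ram P ρ 1 → w.1.1 0 0 = 1 ∧
    (∀ i j, j ≠ Fin.last (s + 2) → i ≠ 0 → w.1.1 i j = if i = j then 1 else 0) ∧
    (∀ j, w.1.1 (Fin.last (s + 2)) j = if Fin.last (s + 2) = j then 1 else 0)

/-- P33: no proper stable subspace `U` contains `e_0`.  `π_U = ∏_(u ∈ U, u ≠ 0) x_u`, `π' = ∏_(u ∉ U) x_u` (`x_u = ∑ u_i X i`) are fixed, integral over `k[t]`, so in `k[t]`, and `π_U π' = ± 1` (`E(T) / T = ∏ (T - x_u)`), so `π_U ∈ k`, `P.ord π_U = 0`.  With `j' + 1 = dim (U ∩ {u_(s+2) = 0})`,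
`P.ord π_U / e = (q Q - 2) - (q ^ j' - 1) (Q - 2) / (Q - 1)`, minus `(q - 1) q ^ j'` if `U` has vectors with `u_(s+2) ≠ 0`; `j' ≤ s + 1`; this is `0` only for `U = ⊤` -/
def S_P33 : Prop := ∀ (p : ℕ) (k F L : Type) [Field k] [IsAlgClosed k] [Field F] [Algebra F k]
  [Field L] [Algebra k L] (f q s : ℕ) (t : L) (X : Fin (s + 3) → L)
  (G₀ : Subgroup (Matrix.SpecialLinearGroup (Fin (s + 3)) F)) (ρ : G₀ →* (L ≃ₐ[k] L))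
  (P : Place k L), p.Prime → p ≠ 2 → CharP k p → 1 ≤ f → q = p ^ f → Nat.card F = q →
  PRoots k F L q s t X → NCover k F L t X G₀ ρ → POrd k F L q s t X P →
  ∀ U : Submodule F (Fin (s + 3) → F), (∀ g ∈ G₀, ∀ u ∈ U, g.1.mulVec u ∈ U) →
    Pi.single 0 1 ∈ U → U = ⊤

/-- P34: the centres `v` of which all transvections are in `G₀` form, with `0`, a subspace (for independent `v, w` such, a transvection with centre `v` moves `w` to `w + v`), stable under `G₀`, and containing `e_0`; `GN3` -/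
def S_P34 : Prop := ∀ (F : Type) [Field F] [Finite F] (n : ℕ)
  (G₀ : Subgroup (Matrix.SpecialLinearGroup (Fin (n + 1)) F)),
  (∀ U : Submodule F (Fin (n + 1) → F), (∀ g ∈ G₀, ∀ u ∈ U, g.1.mulVec u ∈ U) →
    Pi.single 0 1 ∈ U → U = ⊤) →
  (∀ g : Matrix.SpecialLinearGroup (Fin (n + 1)) F,
    (∀ i j, i ≠ 0 → g.1 i j = if i = j then 1 else 0) → g.1 0 0 = 1 → g ∈ G₀) → G₀ = ⊤

/-! ## Algebra and estimates -/

/-- P53: `R(T) = ∏ (T - x_u)` over the `u` with `u_(s+2) = 0`: `R(T) = T ^ (q ^ (s + 2)) + ∑_(i ≤ s + 1) ρ_i T ^ (q ^ i)`, `R(x) = ∏_c (M_1(x) + ∑ c_l Y_l)`, `R(X_(s+2)) = Yp`, `E(T) = ∏_(c ∈ F) (R(T) - c Yp) = R(T) ^ q - Yp ^ (q - 1) R(T)`: compare the coefficients -/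
def S_P53 : Prop := ∀ (p : ℕ) (k F L : Type) [Field k] [Field F] [Fintype F] [Algebra F k]
  [Field L] [Algebra k L] (f q s : ℕ) (t : L) (X : Fin (s + 3) → L) (Y : Fin (s + 1) → L)
  (Yt Yp : L), p.Prime → p ≠ 2 → CharP k p → 1 ≤ f → q = p ^ f → Nat.card F = q →
  PRoots k F L q s t X → PY k F L q s X Y Yt Yp → X 0 ≠ 0 ∧ (∀ l, Y l ≠ 0) ∧ Yp ≠ 0 ∧
  ∃ r : ℕ → L, Yp ^ (q - 1) * r 0 = -1 ∧
    r 0 ^ q - Yp ^ (q - 1) * r 1 = t ^ (q ^ (s + 2) - 2) ∧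
    (∀ i, 2 ≤ i → i ≤ s + 1 → r (i - 1) ^ q = Yp ^ (q - 1) * r i) ∧
    r (s + 1) ^ q - Yp ^ (q - 1) =
      -(t ^ ((q - 1) * q ^ (s + 1)) + 2 * t ^ ((q - 1) * q ^ (s + 1) - 1)) ∧
    (∀ i, i ≠ Fin.last (s + 2) → X i ^ q ^ (s + 2) + ∑ j ∈ range (s + 2), r j * X i ^ q ^ j = 0) ∧
    X (Fin.last (s + 2)) ^ q ^ (s + 2) +
      ∑ j ∈ range (s + 2), r j * X (Fin.last (s + 2)) ^ q ^ j = Yp

/-- P54: from `E(X_i) = 0` and the orders: `b X_0 ^ (q - 1) = - 1 - ...`; `X_i ^ (q (Q - 1)) = - b / a (1 + O(1 / t)) = t ^ (Q - 2) (1 + O(1 / t))` for the middle roots (the term `X ^ (q ^ n)` is smaller than `b X ^ q` by the order `e (q - 1) Q / (Q - 1)`), `Y_l = X_(l+1) ^ q (1 + O(1 / t))`; `(Y_l / Y_0) ^ (Q - 1) = 1 + O(1 / t)`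
and `Q - 1` is prime to `p` -/
def S_P54 : Prop := ∀ (p : ℕ) (k F L : Type) [Field k] [IsAlgClosed k] [Field F] [Fintype F]
  [Algebra F k] [Field L] [Algebra k L] (f q s : ℕ) (t : L) (X : Fin (s + 3) → L)
  (Y : Fin (s + 1) → L) (Yt Yp : L) (P : Place k L), p.Prime → p ≠ 2 → CharP k p → 1 ≤ f →
  q = p ^ f → Nat.card F = q → PRoots k F L q s t X → POrd k F L q s t X P →
  PY k F L q s X Y Yt Yp →
  P.Ge (X 0 ^ (q - 1) * t ^ (q ^ (s + 2) - 2) + 1) (-P.ord t) ∧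
  (∀ l, ((q : ℤ) ^ (s + 1) - 1) * P.ord (Y l) = ((q : ℤ) ^ (s + 1) - 2) * P.ord t) ∧
  (∀ l, P.Ge (Y l ^ (q ^ (s + 1) - 1) / t ^ (q ^ (s + 1) - 2) - 1) (-P.ord t)) ∧
  Yt ≠ 0 ∧ P.ord Yt = P.ord t ∧
  ∃ θ : Fin (s + 1) → k, θ 0 = 1 ∧ (∀ l, θ l ^ q ^ (s + 1) = θ l) ∧
    (∀ c : Fin (s + 1) → F, ∑ l, algebraMap F k (c l) * θ l = 0 → c = 0) ∧
    ∀ l, P.Ge (Y l / Y 0 - algebraMap k L (θ l)) (-P.ord t)

/-- P5D: orders of the coefficients: `P.ord Yp = Q P.ord t` (`Yp ^ (q - 1) = - a + r_(s+1) ^ q`), `r_1` has order `(Q - 2) P.ord t`, `r_i` order `(Q - 2 q ^ (i - 1)) P.ord t` for `1 ≤ i ≤ s + 1`, `r_0` order `- (q - 1) Q P.ord t`; (first: `P.ord Yp = q ^ (s + 1) P.ord t`, all factors of `Yp` have the order of `Yt`, `P54`).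
`r_(s+1) ^ q` is smaller than `a` by `e Q`; `g = Yp / t ^ Q`: `g ^ (q - 1) = 1 + 2 / t + O(1 / t ^ 2)`; `g = ζ (1 + ε)`, `ζ ^ (q - 1) = 1`, `(1 + ε) ^ (q - 1) = (1 + ε ^ q) / (1 + ε) = 1 - ε + O(ε ^ 2)`, so `ε = - 2 / t + O(1 / t ^ 2)` -/
def S_P5D : Prop := ∀ (p : ℕ) (k F L : Type) [Field k] [IsAlgClosed k] [Field F] [Fintype F]
  [Algebra F k] [Field L] [Algebra k L] (f q s : ℕ) (t : L) (X : Fin (s + 3) → L)
  (Y : Fin (s + 1) → L) (Yt Yp : L) (P : Place k L) (r : ℕ → L), p.Prime → p ≠ 2 →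
  CharP k p → 1 ≤ f → q = p ^ f → Nat.card F = q → PRoots k F L q s t X →
  POrd k F L q s t X P → PY k F L q s X Y Yt Yp → Yp ^ (q - 1) * r 0 = -1 →
  r 0 ^ q - Yp ^ (q - 1) * r 1 = t ^ (q ^ (s + 2) - 2) →
  (∀ i, 2 ≤ i → i ≤ s + 1 → r (i - 1) ^ q = Yp ^ (q - 1) * r i) →
  r (s + 1) ^ q - Yp ^ (q - 1) =
    -(t ^ ((q - 1) * q ^ (s + 1)) + 2 * t ^ ((q - 1) * q ^ (s + 1) - 1)) →
  P.ord Yp = (q : ℤ) ^ (s + 1) * P.ord t ∧ P.ord (r 0) = -(((q : ℤ) - 1) * q ^ (s + 1) * P.ord t) ∧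
  (∀ i, 1 ≤ i → i ≤ s + 1 → P.ord (r i) = ((q : ℤ) ^ (s + 1) - 2 * q ^ (i - 1)) * P.ord t) ∧
  ∃ ζ : k, ζ ^ (q - 1) = 1 ∧
    P.Ge (Yp / (algebraMap k L ζ * t ^ q ^ (s + 1)) - 1 + 2 / t) (-2 * P.ord t)

/-- P5E: `v = Yt / Y_0`, `h = ζ t / Y_0`, `z = v - h`.  `x = X_0 ^ (q - 1)`, `X ^ (q ^ i) = M_1(X) ^ (q ^ (i - 1)) + x ^ (q ^ (i - 1)) X ^ (q ^ (i - 1))`, so `Yp = Yt ^ Q + r_1 Yt + ∑_(2 ≤ i ≤ s + 1) r_i Yt ^ (q ^ (i - 1)) + (terms with x and r_0)`, the same for `Y_0` and `0`; so `v ^ Q - v = (Yp / Y_0 ^ Q) (1 + O(1 / t ^ 2))`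
(orders of `P5D`; `r_i Yt ^ (q ^ (i - 1))` and `r_i Yt Y_0 ^ (q ^ (i - 1) - 1)` are smaller than `Yp` by `e q ^ (i - 1)` at least), `= h ^ Q (1 - 2 / t + O(1 / t ^ 2))` (`ζ ^ Q = ζ`); `h ^ (Q - 1) = t (1 + O(1 / t))`; so `z ^ Q - z = h - 2 h ^ Q / t + O(h / t) = - h + O(h / t)`.
`(Y_0 / X_0 ^ q) ^ (Q - 1) = ± t ^ ν (1 + O(1 / t))` (`P54`), so `Y_0 / X_0 ^ q = α h ^ ν (1 + O(1 / t))` -/
def S_P5E : Prop := ∀ (p : ℕ) (k F L : Type) [Field k] [IsAlgClosed k] [Field F] [Fintype F]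
  [Algebra F k] [Field L] [Algebra k L] (f q s : ℕ) (t : L) (X : Fin (s + 3) → L)
  (Y : Fin (s + 1) → L) (Yt Yp h z : L) (ζ : k) (P : Place k L), p.Prime → p ≠ 2 →
  CharP k p → 1 ≤ f → q = p ^ f → Nat.card F = q → PRoots k F L q s t X →
  POrd k F L q s t X P → PY k F L q s X Y Yt Yp → ζ ^ (q - 1) = 1 →
  P.Ge (Yp / (algebraMap k L ζ * t ^ q ^ (s + 1)) - 1 + 2 / t) (-2 * P.ord t) →
  h = algebraMap k L ζ * t / Y 0 → z = Yt / Y 0 - h →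
  h ≠ 0 ∧ ((q : ℤ) ^ (s + 1) - 1) * P.ord h = P.ord t ∧
  P.Ge (Yp / Y 0 ^ q ^ (s + 1) - h ^ q ^ (s + 1) + 2 * h) (P.ord h - P.ord t) ∧
  P.Ge (z ^ q ^ (s + 1) - z + h) (P.ord h - P.ord t) ∧
  ∃ α : k, α ≠ 0 ∧
    P.Ge (Y 0 / X 0 ^ q - algebraMap k L α * h ^ nu q s) ((nu q s : ℤ) * P.ord h - P.ord t)

/-- P5H: `α_l` from `MO2` for the `Y_l` (their Moore determinant is not `0`: it is `Y_0 ^ ((Q - 1) / (q - 1)) (Mo θ + O(1 / t))`, `Mo θ ≠ 0`; or `Y_l` are independent over `F`), `ψ_l = α_l(Yt)`, `ψ_l ^ q - ψ_l = ± Yp (Mo(Y without l) / Mo(Y)) ^ q = (Yp / Y_0 ^ Q) (β_l + O(1 / t ^ q))`, `β_l = ± (Mo(θ without l) / Mo(θ)) ^ q ∈ F_Q`, independent over `F`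
(`∑ β_l θ_l ^ (q ^ i)` is `1` or `0` for `0 ≤ i ≤ s`); with `Yp / Y_0 ^ Q = h ^ Q - 2 h + O(h / t)` and `Z_l = ψ_l - ∑_(j ≤ s) (β_l h) ^ (q ^ j)`: `Z_l ^ q - Z_l = - β_l h + O(h / t)`.  `w ∈ ram 1`: `w Y_l = Y_l`, `w Yt = Yt + ∑ w_(l+1,s+2) Y_l`, `w h = h` -/
def S_P5H : Prop := ∀ (p : ℕ) (k F L : Type) [Field k] [IsAlgClosed k] [Field F] [Fintype F]
  [Algebra F k] [Field L] [Algebra k L] (f q s : ℕ) (t : L) (X : Fin (s + 3) → L)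
  (G₀ : Subgroup (Matrix.SpecialLinearGroup (Fin (s + 3)) F)) (ρ : G₀ →* (L ≃ₐ[k] L))
  (Y : Fin (s + 1) → L) (Yt Yp h : L) (ζ : k) (θ : Fin (s + 1) → k) (P : Place k L), p.Prime →
  p ≠ 2 → CharP k p → 1 ≤ f → q = p ^ f → Nat.card F = q → PRoots k F L q s t X →
  NCover k F L t X G₀ ρ → POrd k F L q s t X P → PY k F L q s X Y Yt Yp →
  (∀ w : G₀, w ∈ ram P ρ 1 → w.1.1 0 0 = 1 ∧
    (∀ i j, j ≠ Fin.last (s + 2) → i ≠ 0 → w.1.1 i j = if i = j then 1 else 0) ∧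
    (∀ j, w.1.1 (Fin.last (s + 2)) j = if Fin.last (s + 2) = j then 1 else 0)) →
  θ 0 = 1 → (∀ l, θ l ^ q ^ (s + 1) = θ l) →
  (∀ c : Fin (s + 1) → F, ∑ l, algebraMap F k (c l) * θ l = 0 → c = 0) →
  (∀ l, P.Ge (Y l / Y 0 - algebraMap k L (θ l)) (-P.ord t)) → ζ ^ (q - 1) = 1 →
  h = algebraMap k L ζ * t / Y 0 → h ≠ 0 → ((q : ℤ) ^ (s + 1) - 1) * P.ord h = P.ord t →
  P.Ge (Yp / Y 0 ^ q ^ (s + 1) - h ^ q ^ (s + 1) + 2 * h) (P.ord h - P.ord t) →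
  (∀ w : G₀, w ∈ ram P ρ 1 → ρ w h = h ∧ (∀ l, ρ w (Y l) = Y l) ∧
    ρ w Yt = Yt + ∑ l, cst k F L (w.1.1 (mi s l) (Fin.last (s + 2))) * Y l) ∧
  ∃ (Z : Fin (s + 1) → L) (β : Fin (s + 1) → k),
    (∀ c : Fin (s + 1) → F, ∑ l, algebraMap F k (c l) * β l = 0 → c = 0) ∧
    (∀ w : G₀, w ∈ ram P ρ 1 → ∀ l, ρ w (Z l) =
      Z l + cst k F L (w.1.1 (mi s l) (Fin.last (s + 2)))) ∧
    ∀ l, P.Ge (Z l ^ q - Z l + algebraMap k L (β l) * h) (P.ord h - P.ord t)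

/-! ## Ramification -/

/-- P55: `T55` for general `s`: `UMR` with `W`, `N = M`, `r = s + 1`, `c w = (w_(l+1,s+2))_l`, the `Z_l` of `P5H`, `D_a = τ = - P.ord h / |W|` for all `a ≠ 0`; `- P.ord t = |I|` (`INF`) `= (Q - 1) τ |W|`, so `p ∤ τ` (`WLD`); `P.ord z = P.ord h / Q` -/
def S_P55 : Prop := ∀ (p : ℕ) (k F L : Type) [Field k] [IsAlgClosed k] [Field F] [Fintype F]
  [Algebra F k] [Field L] [Algebra k L] (f q s : ℕ) (t : L) (X : Fin (s + 3) → L)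
  (G₀ : Subgroup (Matrix.SpecialLinearGroup (Fin (s + 3)) F)) [Fintype G₀]
  (ρ : G₀ →* (L ≃ₐ[k] L)) (h z : L) (Z : Fin (s + 1) → L) (β : Fin (s + 1) → k)
  (P : Place k L) (I W M : Subgroup G₀), p.Prime → p ≠ 2 → CharP k p → 1 ≤ f → q = p ^ f →
  Nat.card F = q → NCover k F L t X G₀ ρ → P.ord t < 0 →
  (∀ w : G₀, w ∈ ram P ρ 1 → w.1.1 0 0 = 1 ∧
    (∀ i j, j ≠ Fin.last (s + 2) → i ≠ 0 → w.1.1 i j = if i = j then 1 else 0) ∧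
    (∀ j, w.1.1 (Fin.last (s + 2)) j = if Fin.last (s + 2) = j then 1 else 0)) →
  h ≠ 0 → ((q : ℤ) ^ (s + 1) - 1) * P.ord h = P.ord t →
  P.Ge (z ^ q ^ (s + 1) - z + h) (P.ord h - P.ord t) →
  (∀ w : G₀, w ∈ ram P ρ 1 → ρ w h = h) →
  (∀ c : Fin (s + 1) → F, ∑ l, algebraMap F k (c l) * β l = 0 → c = 0) →
  (∀ w : G₀, w ∈ ram P ρ 1 → ∀ l, ρ w (Z l) =
    Z l + cst k F L (w.1.1 (mi s l) (Fin.last (s + 2)))) →
  (∀ l, P.Ge (Z l ^ q - Z l + algebraMap k L (β l) * h) (P.ord h - P.ord t)) →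
  (I : Set G₀) = ram P ρ 0 → (W : Set G₀) = ram P ρ 1 →
  (∀ g, g ∈ M ↔ g ∈ W ∧ ∀ l, g.1.1 (mi s l) (Fin.last (s + 2)) = 0) →
  ∃ τ : ℕ, 1 ≤ τ ∧ ¬ p ∣ τ ∧ Nat.card W = q ^ (s + 1) * Nat.card M ∧
    Nat.card I = Nat.card W * ((q ^ (s + 1) - 1) * τ) ∧
    P.ord z = -((τ * Nat.card M : ℕ) : ℤ) ∧
    ∀ g ∈ W, g ∉ M → sm (fun x => P.b (ρ x)) {x | g⁻¹ * x ∈ M} = Nat.card M * τ

/-- P56: `T56` for general `s`: `UMR` with `W := M`, `N = ⊥`, `r = s + 2`, `c g = (g_0i)_(i ≥ 1)`, functions `X_i / X_0`: `(X_(l+1) / X_0) ^ q - ... = Y_l / X_0 ^ q = (Y_0 / X_0 ^ q) (θ_l + O(1 / t))`, the last `Yt / X_0 ^ q = (z + h) Y_0 / X_0 ^ q`.  With `A = T ^ Q - T` (`e_0 = - 1`, `ν + 1 = - 1` in `k`), `h = - A(z) + O(h / t)`: the combination is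
`α' A ^ ν + β' (T A ^ ν - A ^ (ν + 1)) + (degree < Q (ν - 1) + 1)` at `T = z`: `XT2` (`d = f (s + 1)`) if the last coefficient is not `0`, `D_0 = Q (ν - 1) + 2`; else `α' ≠ 0` (independence of `θ`), `XT1`, `XRD`, reduced degree between `Q (ν - 1) + 1` and `D_0`; `D = D_0 τ` -/
def S_P56 : Prop := ∀ (p : ℕ) (k F L : Type) [Field k] [IsAlgClosed k] [Field F] [Fintype F]
  [Algebra F k] [Field L] [Algebra k L] (f q s : ℕ) (t : L) (X : Fin (s + 3) → L)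
  (G₀ : Subgroup (Matrix.SpecialLinearGroup (Fin (s + 3)) F)) [Fintype G₀]
  (ρ : G₀ →* (L ≃ₐ[k] L)) (Y : Fin (s + 1) → L) (Yt Yp h z : L) (θ : Fin (s + 1) → k) (α : k)
  (P : Place k L) (W M : Subgroup G₀) (τ : ℕ), p.Prime → p ≠ 2 → CharP k p → 1 ≤ f →
  q = p ^ f → Nat.card F = q → NCover k F L t X G₀ ρ → P.ord t < 0 → X 0 ≠ 0 → Y 0 ≠ 0 →
  PY k F L q s X Y Yt Yp →
  (∀ w : G₀, w ∈ ram P ρ 1 → w.1.1 0 0 = 1 ∧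
    (∀ i j, j ≠ Fin.last (s + 2) → i ≠ 0 → w.1.1 i j = if i = j then 1 else 0) ∧
    (∀ j, w.1.1 (Fin.last (s + 2)) j = if Fin.last (s + 2) = j then 1 else 0)) →
  (∀ c : Fin (s + 1) → F, ∑ l, algebraMap F k (c l) * θ l = 0 → c = 0) →
  (∀ l, P.Ge (Y l / Y 0 - algebraMap k L (θ l)) (-P.ord t)) → h ≠ 0 →
  ((q : ℤ) ^ (s + 1) - 1) * P.ord h = P.ord t → z = Yt / Y 0 - h →
  P.Ge (z ^ q ^ (s + 1) - z + h) (P.ord h - P.ord t) → α ≠ 0 →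
  P.Ge (Y 0 / X 0 ^ q - algebraMap k L α * h ^ nu q s) ((nu q s : ℤ) * P.ord h - P.ord t) →
  (∀ w : G₀, w ∈ ram P ρ 1 → ρ w h = h) → (W : Set G₀) = ram P ρ 1 →
  (∀ g, g ∈ M ↔ g ∈ W ∧ ∀ l, g.1.1 (mi s l) (Fin.last (s + 2)) = 0) → 1 ≤ τ → ¬ p ∣ τ →
  P.ord z = -((τ * Nat.card M : ℕ) : ℤ) →
  Nat.card M = q ^ (s + 2) ∧ (∀ v : Fin (s + 2) → F, ∃ g ∈ M, ∀ i, g.1.1 0 (Fin.succ i) = v i) ∧
  ∃ l : ℤ, IsLst (fun g => P.b (ρ g)) M l ∧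
    U (fun g => P.b (ρ g)) M l = (((q ^ (s + 1) * (nu q s - 1) + 2) * τ : ℕ) : ℚ)

/-- P57: `P41`, `P42`, `P53`-`P56`, `LC1`, `P33`, `P34` -/
def S_P57 : Prop := ∀ (p : ℕ) (k F : Type) [Field k] [IsAlgClosed k] [Field F] [Algebra F k]
  (f q s : ℕ), p.Prime → p ≠ 2 → CharP k p → 1 ≤ f → q = p ^ f → Nat.card F = q →
  ((q : ℚ) ^ (s + 1) * nu q s + 1) / ((q : ℚ) ^ (s + 1) * ((q : ℚ) ^ (s + 1) - 1)) ∈
    Cond k (Matrix.SpecialLinearGroup (Fin (s + 3)) F)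

/-! ## Conclusion -/

/-- PFN: `P57`, `ALL` (`q ^ (n - 2) ∣ N`, `F` embeds in `k`), `NLB`, `NQD`, `UB3` -/
def S_PFN : Prop := ∀ (p : ℕ) (k F : Type) [Field k] [IsAlgClosed k] [Field F] (f q n : ℕ),
  p.Prime → p ≠ 2 → CharP k p → 1 ≤ f → q = p ^ f → Nat.card F = q → 3 ≤ n →
  ∀ (C : Subgroup (Matrix.SpecialLinearGroup (Fin n) F)) [C.Normal],
  C ≤ Subgroup.center (Matrix.SpecialLinearGroup (Fin n) F) →
  NG k (Matrix.SpecialLinearGroup (Fin n) F ⧸ C) =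
    q ^ (n - 2) * (Finset.Icc 1 (n - 1)).lcm (fun m => q ^ m - 1)

/-- as `LieT`, with the exact power of `p` for `SL_n(q)`, `p` odd -/
def LieT2 (p : ℕ) (G : Type) [Group G] (r lo hi : ℕ) : Prop :=
  (∃ (F : Type) (_ : Field F) (f q n : ℕ) (C : Subgroup (Matrix.SpecialLinearGroup (Fin n) F))
    (_ : C.Normal), 1 ≤ f ∧ q = p ^ f ∧ Nat.card F = q ∧ C ≤ Subgroup.center _ ∧
    Nonempty (G ≃* Matrix.SpecialLinearGroup (Fin n) F ⧸ C) ∧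
    ((n = 2 ∧ r = (q - 1) / Nat.gcd 2 (q - 1) ∧ lo = 0 ∧ hi = 0) ∨
      (3 ≤ n ∧ r = (Finset.Icc 1 (n - 1)).lcm (fun m => q ^ m - 1) ∧
        lo = (if p = 2 then 0 else f * (n - 2)) ∧ hi = f * (n - 2)))) ∨
  (∃ (F : Type) (_ : Field F) (f q : ℕ) (σ : F →+* F) (C : Subgroup (SU3 σ)) (_ : C.Normal),
    1 ≤ f ∧ q = p ^ f ∧ Nat.card F = q ^ 2 ∧ (∀ a, σ a = a ^ q) ∧ C ≤ Subgroup.center _ ∧
    Nonempty (G ≃* SU3 σ ⧸ C) ∧ r = q - 1 ∧ lo = f ∧ hi = f) ∨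
  (p = 2 ∧ ∃ (F : Type) (_ : Field F) (_ : CharP F 2) (n q : ℕ) (φ : F →+* F), 1 ≤ n ∧
    q = 2 ^ (2 * n + 1) ∧ Nat.card F = q ∧ (∀ a, φ a = a ^ 2 ^ (n + 1)) ∧
    Nonempty (G ≃* Sz φ) ∧ r = q - 1 ∧ lo = n ∧ hi = n)

/-- LTG: as `LTF` (`Pool/Agent/H74/CTN/LTF.lean`), with `PFN` -/
def S_LTG : Prop := ∀ (p n : ℕ) (k : Type) [Field k] [IsAlgClosed k] [CharP k p]
  (G : Fin n → Type) [∀ i, Group (G i)] (r lo hi : Fin n → ℕ), p.Prime →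
  (∀ i, LieT2 p (G i) (r i) (lo i) (hi i)) → ∃ s : ℕ,
  NG k (∀ i, G i) = p ^ s * (Finset.univ : Finset (Fin n)).lcm r ∧
  (∀ i, lo i ≤ s) ∧ (s = 0 ∨ ∃ i, s ≤ hi i)

end Pool.CND
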